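import Pool.Agent.R479.DB.Core

/-!
# Vojta's inequality for all finite subsets of the projective line at once, for the approximations of
one number

`K` is a number field of degree `d`, `X` any metric space and `σ : K → X` any map, for example the
embedding of `K` in `ℝ`, `ℂ`, one of its completions, or a product of completions. For `z` in `X`
consider the elements `x` of `K` with `dist z (σ x) ≤ H(x) ^ (-τ)`. We prove that, for all `z` outside
a set of Hausdorff dimension at most `d G(t) / τ`, the truncated inequality with the coefficient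
`(1 - t / 3) q` holds for all but finitely many of these `x`, for *all* finite sets of primes `T`, all
`q ≥ 3` and all `q` distinct points `α_1, …, α_q` of the projective line over `K`.
-/

set_option autoImplicit false

namespace Pool.Agent.Results.MP_4d5ce1_nt.AllSubsetsOneNumber

open NumberField IsDedekindDomain MeasureTheory

/-- the absolute logarithmic height of the point `[x : 1]` -/
noncomputable def height {K : Type} [Field K] [NumberField K] (x : K) : ℝ :=
  (∑ w : InfinitePlace K, (w.mult : ℝ) * Real.log (max (w x) (w 1)) +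
    ∑ᶠ v : HeightOneSpectrum (RingOfIntegers K),
      Real.log (max (FinitePlace.mk v x) (FinitePlace.mk v 1))) /
    (Module.finrank ℚ K : ℝ)

/-- the truncated counting function of the point `[x : 1]` with respect to the points
`[(α l).1 : (α l).2]`: the sum over the primes outside `T` and over `l` of the truncated local
heights -/
noncomputable def counting {K : Type} [Field K] [NumberField K]
    (T : Set (HeightOneSpectrum (RingOfIntegers K))) {q : ℕ} (α : Fin q → K × K) (x : K) : ℝ :=
  ∑ᶠ (v : HeightOneSpectrum (RingOfIntegers K)) (_ : v ∉ T),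
    ∑ l : Fin q,
      min
        (Real.log
            (max (FinitePlace.mk v x) (FinitePlace.mk v 1) *
              max (FinitePlace.mk v (α l).1) (FinitePlace.mk v (α l).2) /
              FinitePlace.mk v (x * (α l).2 - 1 * (α l).1)) /
          (Module.finrank ℚ K : ℝ))
        (Real.log (Ideal.absNorm v.asIdeal : ℝ) / (Module.finrank ℚ K : ℝ))

/-- the elements `x` of `K` with `dist z (σ x) ≤ H(x) ^ (-τ)` -/
def approximations {K X : Type} [Field K] [NumberField K] [MetricSpace X] (σ : K → X) (τ : ℝ)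
    (z : X) : Set K :=
  {x | dist z (σ x) ≤ Real.exp (-τ * height x)}

/-- For every finite set `T` of primes of `K`, all `q ≥ 3`, all distinct points `α_1, …, α_q` of the
projective line over `K` and all real `c`, the inequality
`(1 - t / 3) q h(x) + c ≤ ∑_{v ∉ T} ∑_l λ^(1)_v(α_l, x)` holds for all but finitely many of the `x` in
`K` with `dist z (σ x) ≤ H(x) ^ (-τ)`, different from the `α_l`. -/
def AllSubsets {K X : Type} [Field K] [NumberField K] [MetricSpace X] (σ : K → X) (τ t : ℝ)
    (z : X) : Prop :=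
  ∀ T : Set (HeightOneSpectrum (RingOfIntegers K)), T.Finite →
    ∀ q : ℕ, 3 ≤ q → ∀ α : Fin q → K × K, (∀ i, α i ≠ 0) →
      (∀ i j, i ≠ j → (α i).1 * (α j).2 - (α i).2 * (α j).1 ≠ 0) →
      ∀ c : ℝ, {x : K | x ∈ approximations σ τ z ∧ (∀ l, x * (α l).2 - 1 * (α l).1 ≠ 0) ∧
        counting T α x < (1 - t / 3) * q * height x + c}.Finite

/-- the exponent: a continuous decreasing function on `[0, 3]`, linear on each of the intervals
between `0, 1, 4/3, 3/2, 12/7, 2, 38/15, 3`, with the values `2, 1, 1, 5/6, 5/7, 20/37, 4/15, 0` at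
these points -/
noncomputable def G (u : ℝ) : ℝ :=
  if u < 1 then 2 - u
  else if u < 4 / 3 then 1
  else if u < 3 / 2 then 7 / 3 - u
  else if u < 12 / 7 then 5 * (3 - u) / 9
  else if u < 2 then 5 * (26 - 9 * u) / 74
  else if u < 38 / 15 then (58 - 19 * u) / 37
  else 4 * (3 - u) / 7

theorem sub_of_not {K X : Type} [Field K] [NumberField K] [MetricSpace X] (σ : K → X) (τ t : ℝ) :
    {z : X | ¬ AllSubsets σ τ t z} ⊆ {z : X | ∃ (T : Set (HeightOneSpectrum (RingOfIntegers K)))
        (q : ℕ) (α : Fin q → K × K) (c : ℝ), T.Finite ∧ 3 ≤ q ∧ (∀ i, α i ≠ 0) ∧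
        (∀ i j, i ≠ j → (α i).1 * (α j).2 - (α i).2 * (α j).1 ≠ 0) ∧
        {x | x ∈ Pool.Agent.R479.DB.exc T α (t * q / 3) c ∧
          dist z (σ x) ≤ Real.exp (Pool.Agent.R479.DB.height x) ^ (-τ)}.Infinite} := by
  intro z hz
  simp only [Set.mem_ofPred_eq, AllSubsets, not_forall] at hz
  obtain ⟨T, hT, q, hq, α, h0, h1, c, hinf⟩ := hz
  refine ⟨T, q, α, c, hT, hq, h0, h1, Set.Infinite.mono ?_ hinf⟩
  rintro x ⟨h2, h3, h4⟩
  refine ⟨⟨h3, ?_⟩, ?_⟩
  · have e : ((q : ℝ) - t * q / 3) = (1 - t / 3) * q := by ring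
    rw [e]
    exact h4
  · rw [← Real.exp_mul, mul_comm]
    exact h2

theorem mono {K X : Type} [Field K] [NumberField K] [MetricSpace X] {σ : K → X} {τ τ' t t' : ℝ}
    {z : X} (hτ : τ' ≤ τ) (ht : t' ≤ t) (h : AllSubsets σ τ' t' z) : AllSubsets σ τ t z := by
  intro T hT q hq α h0 h3 c
  refine (h T hT q hq α h0 h3 c).subset ?_
  rintro x ⟨h4, h5, h6⟩
  have h7 : 0 ≤ height x := Pool.Agent.R479.DB.height_nonneg x
  have h8 : 0 ≤ (q : ℝ) * height x := mul_nonneg (Nat.cast_nonneg q) h7
  have h9 : Real.exp (-τ * height x) ≤ Real.exp (-τ' * height x) := by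
    rw [Real.exp_le_exp]
    nlinarith
  have h4' : dist z (σ x) ≤ Real.exp (-τ * height x) := h4
  refine ⟨h4'.trans h9, h5, lt_of_lt_of_le h6 ?_⟩
  nlinarith

/-- **One number, all finite subsets.**

* Let `K` be a number field of degree `d`, `X` a metric space, `σ : K → X` any map, `0 ≤ t < 3` and
`τ > 0`. The `z` in `X` for which `AllSubsets σ τ t z` fails form a set of Hausdorff dimension at most
`d G(t) / τ`.
* For almost every real number `ξ` the assertion `AllSubsets σ τ t ξ` holds for all `0 < t ≤ 1` and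
all `τ > 2 - t`, where `σ` is the inclusion of `ℚ` in `ℝ`. -/
theorem result :
    (∀ (K X : Type) [Field K] [NumberField K] [MetricSpace X] (σ : K → X) (t τ : ℝ), 0 ≤ t → t < 3 →
      0 < τ → dimH {z : X | ¬ AllSubsets σ τ t z} ≤
        ENNReal.ofReal ((Module.finrank ℚ K : ℝ) * G t / τ)) ∧
    (∀ᵐ ξ : ℝ, ∀ t τ : ℝ, 0 < t → t ≤ 1 → 2 - t < τ → AllSubsets (fun x : ℚ => (x : ℝ)) τ t ξ) := by
  have h1 : ∀ (K X : Type) [Field K] [NumberField K] [MetricSpace X] (σ : K → X) (t τ : ℝ),
      0 ≤ t → t < 3 → 0 < τ → dimH {z : X | ¬ AllSubsets σ τ t z} ≤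
        ENNReal.ofReal ((Module.finrank ℚ K : ℝ) * G t / τ) := by
    intro K X _ _ _ σ t τ ht0 ht3 hτ
    exact (dimH_mono (sub_of_not σ τ t)).trans (Pool.Agent.R479.DB.dim_all σ t τ ht0 ht3 hτ)
  refine ⟨h1, ?_⟩
  have h2 : ∀ r s : ℚ, ∀ᵐ ξ : ℝ, 0 < (r : ℝ) → (r : ℝ) < 1 → 2 - (r : ℝ) < s →
      AllSubsets (fun x : ℚ => (x : ℝ)) s r ξ := by
    intro r s
    by_cases hr : 0 < (r : ℝ) ∧ (r : ℝ) < 1 ∧ 2 - (r : ℝ) < s
    · obtain ⟨hr0, hr1, hs⟩ := hr
      have h3 := h1 ℚ ℝ (fun x : ℚ => (x : ℝ)) r s hr0.le (by linarith) (by linarith)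
      have h4 : dimH {z : ℝ | ¬ AllSubsets (fun x : ℚ => (x : ℝ)) s r z} < 1 := by
        refine lt_of_le_of_lt h3 ?_
        rw [← ENNReal.ofReal_one]
        apply ENNReal.ofReal_lt_ofReal_iff one_pos |>.2
        unfold G
        rw [if_pos hr1, Module.finrank_self, div_lt_one (by linarith)]
        push_cast
        linarith
      have h5 : ∀ᵐ ξ : ℝ, AllSubsets (fun x : ℚ => (x : ℝ)) s r ξ := by
        rw [ae_iff]
        apply measure_zero_of_dimH_lt (d := 1) _ (by simpa using h4)
        rw [NNReal.coe_one, hausdorffMeasure_real]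
      filter_upwards [h5] with ξ hξ _ _ _
      exact hξ
    · exact Filter.Eventually.of_forall fun ξ a b c => absurd ⟨a, b, c⟩ hr
  filter_upwards [ae_all_iff.2 fun r => ae_all_iff.2 (h2 r)] with ξ hξ t τ ht0 ht1 hτ
  obtain ⟨s, hs1, hs2⟩ := exists_rat_btwn hτ
  obtain ⟨r, hr1, hr2⟩ := exists_rat_btwn (show max 0 (2 - (s : ℝ)) < t from
    max_lt ht0 (by linarith))
  have hr0 : (0 : ℝ) < r := lt_of_le_of_lt (le_max_left _ _) hr1
  have hr3 : 2 - (s : ℝ) < r := lt_of_le_of_lt (le_max_right _ _) hr1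
  exact mono hs2.le hr2.le (hξ r s hr0 (by linarith) (by linarith))

end Pool.Agent.Results.MP_4d5ce1_nt.AllSubsetsOneNumber
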