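import Pool.Agent.R479.DB.Exact2

/-!
# The exact dimension of the set of the real numbers whose rational approximations violate the
truncated inequality

`α_1, …, α_q` are distinct points of the projective line over `ℚ`, `T` is a finite set of primes. We
find the Hausdorff dimension of the set of the real `ξ` for which infinitely many rational `x` with
`|ξ - x| ≤ H(x) ^ (-τ)` satisfy `∑_{p ∉ T} ∑_l λ^(1)_p(α_l, x) < (q - κ) h(x) + c`.
-/

set_option autoImplicit false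

namespace Pool.Agent.Results.MP_4d5ce1_nt.ExactDimension

open NumberField IsDedekindDomain

/-- the absolute logarithmic height of the point `[x : 1]` -/
noncomputable def height {K : Type} [Field K] [NumberField K] (x : K) : ℝ :=
  (∑ w : InfinitePlace K, (w.mult : ℝ) * Real.log (max (w x) (w 1)) +
    ∑ᶠ v : HeightOneSpectrum (RingOfIntegers K),
      Real.log (max (FinitePlace.mk v x) (FinitePlace.mk v 1))) /
    (Module.finrank ℚ K : ℝ)

/-- the truncated counting function of the point `[x : 1]` with respect to the points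
`[(α l).1 : (α l).2]`: the sum over the primes outside `T` and over `l` of the truncated local
heights -/
noncomputable def counting {K : Type} [Field K] [NumberField K]
    (T : Set (HeightOneSpectrum (RingOfIntegers K))) {q : ℕ} (α : Fin q → K × K) (x : K) : ℝ :=
  ∑ᶠ (v : HeightOneSpectrum (RingOfIntegers K)) (_ : v ∉ T),
    ∑ l : Fin q,
      min
        (Real.log
            (max (FinitePlace.mk v x) (FinitePlace.mk v 1) *
              max (FinitePlace.mk v (α l).1) (FinitePlace.mk v (α l).2) /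
              FinitePlace.mk v (x * (α l).2 - 1 * (α l).1)) /
          (Module.finrank ℚ K : ℝ))
        (Real.log (Ideal.absNorm v.asIdeal : ℝ) / (Module.finrank ℚ K : ℝ))

/-- the real numbers `ξ` such that infinitely many rational `x`, different from the `α_l`, satisfy
`|ξ - x| ≤ H(x) ^ (-τ)` and `∑_{p ∉ T} ∑_l λ^(1)_p(α_l, x) < (q - κ) h(x) + c` -/
def Exceptional (T : Set (HeightOneSpectrum (RingOfIntegers ℚ))) {q : ℕ} (α : Fin q → ℚ × ℚ)
    (κ c τ : ℝ) : Set ℝ :=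
  {ξ : ℝ | {x : ℚ | (∀ l, x * (α l).2 - 1 * (α l).1 ≠ 0) ∧
    |ξ - (x : ℝ)| ≤ Real.exp (-τ * height x) ∧
    counting T α x < ((q : ℝ) - κ) * height x + c}.Infinite}

/-- the real numbers that are in `Exceptional T α κ c τ` for some finite set `T` of primes, some
`q ≥ 2`, some distinct points `α_1, …, α_q` of the projective line over `ℚ` and some real `c` -/
def AllExceptional (κ τ : ℝ) : Set ℝ :=
  {ξ : ℝ | ∃ (T : Set (HeightOneSpectrum (RingOfIntegers ℚ))) (q : ℕ) (α : Fin q → ℚ × ℚ) (c : ℝ),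
    T.Finite ∧ 2 ≤ q ∧ (∀ i, α i ≠ 0) ∧
    (∀ i j, i ≠ j → (α i).1 * (α j).2 - (α i).2 * (α j).1 ≠ 0) ∧ ξ ∈ Exceptional T α κ c τ}

theorem exceptional_eq (T : Set (HeightOneSpectrum (RingOfIntegers ℚ))) {q : ℕ}
    (α : Fin q → ℚ × ℚ) (κ c τ : ℝ) :
    Exceptional T α κ c τ = Pool.Agent.R479.DB.WE T α κ c τ := by
  ext ξ
  unfold Exceptional Pool.Agent.R479.DB.WE
  simp only [Set.mem_ofPred_eq]
  have h1 : {x : ℚ | (∀ l, x * (α l).2 - 1 * (α l).1 ≠ 0) ∧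
      |ξ - (x : ℝ)| ≤ Real.exp (-τ * height x) ∧
      counting T α x < ((q : ℝ) - κ) * height x + c} =
      {x : ℚ | x ∈ Pool.Agent.R479.DB.ex T α κ c ∧
        dist ξ (x : ℝ) ≤ Real.exp (Pool.Agent.W221.Exc.height x) ^ (-τ)} := by
    ext x
    simp only [Set.mem_ofPred_eq]
    have h2 : Real.exp (Pool.Agent.W221.Exc.height x) ^ (-τ) = Real.exp (-τ * height x) := by
      rw [← Real.exp_mul, mul_comm]
      rfl
    rw [h2, Real.dist_eq]
    constructor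
    · rintro ⟨h3, h4, h5⟩
      exact ⟨⟨h3, h5⟩, h4⟩
    · rintro ⟨⟨h3, h5⟩, h4⟩
      exact ⟨h3, h4, h5⟩
  rw [h1]

theorem sel_of {q : ℕ} (hq : 2 ≤ q) {κ : ℝ} (h : κ ≤ 6 / 7 ∨ (q = 3 ∧ κ ≤ 1) ∨ q = 2) :
    Pool.Agent.H691R3.Sel.{0} q κ (2 - κ) := by
  rcases h with h | ⟨rfl, h⟩ | rfl
  · have h1 := Pool.Agent.H691R3.sel_all.{0} hq κ
    rwa [max_eq_left (by linarith)] at h1
  · exact Pool.Agent.W221.Exc.sel_below_one (by norm_num)
      (Pool.Agent.W221.Exc.sel_three_one 1 le_rfl) h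
  · have h1 := Pool.Agent.H691R3.sel_two.{0} (q := 2) le_rfl κ
    have h2 : (2 : ℝ) - 2 * κ / ((2 : ℕ) : ℝ) = 2 - κ := by push_cast; ring
    rwa [h2] at h1

/-- **The exact dimension.**

Let `T` be a finite set of primes, `α_1, …, α_q` (`q ≥ 2`) distinct points of the projective line
over `ℚ`, `0 ≤ κ < 2`, `c` real and `τ > 0`. The set `Exceptional T α κ c τ` has Hausdorff dimension at
least `min 1 ((2 - κ) / τ)`, with equality if `κ ≤ 6/7`, or `q = 3` and `κ ≤ 1`, or `q = 2`.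

If `0 ≤ κ ≤ 6/7` and `τ > 0`, the union `AllExceptional κ τ` of all these sets over all `T`, `q ≥ 2`,
`α` and `c` still has dimension `min 1 ((2 - κ) / τ)`. -/
theorem result :
    (∀ (T : Set (HeightOneSpectrum (RingOfIntegers ℚ))), T.Finite →
      ∀ (q : ℕ), 2 ≤ q → ∀ (α : Fin q → ℚ × ℚ), (∀ i, α i ≠ 0) →
        (∀ i j, i ≠ j → (α i).1 * (α j).2 - (α i).2 * (α j).1 ≠ 0) →
        ∀ κ c τ : ℝ, 0 ≤ κ → κ < 2 → 0 < τ →
          ENNReal.ofReal (min 1 ((2 - κ) / τ)) ≤ dimH (Exceptional T α κ c τ) ∧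
          (κ ≤ 6 / 7 ∨ (q = 3 ∧ κ ≤ 1) ∨ q = 2 →
            dimH (Exceptional T α κ c τ) = ENNReal.ofReal (min 1 ((2 - κ) / τ)))) ∧
    (∀ κ τ : ℝ, 0 ≤ κ → κ ≤ 6 / 7 → 0 < τ →
      dimH (AllExceptional κ τ) = ENNReal.ofReal (min 1 ((2 - κ) / τ))) := by
  have hup : ∀ (T : Set (HeightOneSpectrum (RingOfIntegers ℚ))), T.Finite →
      ∀ (q : ℕ), 2 ≤ q → ∀ (α : Fin q → ℚ × ℚ), (∀ i, α i ≠ 0) →
        (∀ i j, i ≠ j → (α i).1 * (α j).2 - (α i).2 * (α j).1 ≠ 0) →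
        ∀ κ c τ : ℝ, 0 ≤ κ → κ < 2 → 0 < τ → (κ ≤ 6 / 7 ∨ (q = 3 ∧ κ ≤ 1) ∨ q = 2) →
          dimH (Exceptional T α κ c τ) ≤ ENNReal.ofReal (min 1 ((2 - κ) / τ)) := by
    intro T hT q hq α h0 hα κ c τ hκ0 hκ2 hτ h
    rw [exceptional_eq]
    exact Pool.Agent.R479.DB.WE_le T hT hq α h0 hα κ c τ (2 - κ) hκ0 (by linarith) hτ (sel_of hq h)
  have hlow : ∀ (T : Set (HeightOneSpectrum (RingOfIntegers ℚ))),
      ∀ (q : ℕ), 2 ≤ q → ∀ (α : Fin q → ℚ × ℚ), (∀ i, α i ≠ 0) →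
        (∀ i j, i ≠ j → (α i).1 * (α j).2 - (α i).2 * (α j).1 ≠ 0) →
        ∀ κ c τ : ℝ, 0 ≤ κ → κ < 2 → 0 < τ →
          ENNReal.ofReal (min 1 ((2 - κ) / τ)) ≤ dimH (Exceptional T α κ c τ) := by
    intro T q hq α h0 hα κ c τ hκ0 hκ2 hτ
    rw [exceptional_eq]
    exact Pool.Agent.R479.DB.WE_ge T hq α h0 hα κ c τ hκ0 hκ2 hτ
  refine ⟨fun T hT q hq α h0 hα κ c τ hκ0 hκ2 hτ =>
    ⟨hlow T q hq α h0 hα κ c τ hκ0 hκ2 hτ, fun h =>
      le_antisymm (hup T hT q hq α h0 hα κ c τ hκ0 hκ2 hτ h)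
        (hlow T q hq α h0 hα κ c τ hκ0 hκ2 hτ)⟩, ?_⟩
  intro κ τ hκ0 hκ hτ
  apply le_antisymm
  · have := Pool.Agent.R479.DB.countable_primes ℚ
    set J := Finset (HeightOneSpectrum (RingOfIntegers ℚ)) × (Σ q : ℕ, (Fin q → ℚ × ℚ)) × ℕ with hJ
    have hJc : Countable J := inferInstance
    set Z : J → Set ℝ := fun j => {ξ : ℝ | (2 ≤ j.2.1.1 ∧ (∀ i, j.2.1.2 i ≠ 0) ∧
      (∀ i k, i ≠ k → (j.2.1.2 i).1 * (j.2.1.2 k).2 - (j.2.1.2 i).2 * (j.2.1.2 k).1 ≠ 0)) ∧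
      ξ ∈ Exceptional (j.1 : Set (HeightOneSpectrum (RingOfIntegers ℚ))) j.2.1.2 κ
        (j.2.2 : ℝ) τ} with hZ
    refine le_trans (dimH_mono (t := ⋃ j, Z j) ?_) ?_
    · rintro ξ ⟨T, q, α, c, hT, hq, h1, h2, h3⟩
      rw [Set.mem_iUnion]
      obtain ⟨n, hn⟩ := exists_nat_ge c
      refine ⟨(hT.toFinset, ⟨q, α⟩, n), ⟨hq, h1, h2⟩, h3.mono ?_⟩
      rintro x ⟨h4, h5, h6⟩
      refine ⟨h4, h5, ?_⟩
      simp only [Set.Finite.coe_toFinset]
      linarith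
    · rw [dimH_iUnion]
      refine iSup_le fun j => ?_
      obtain ⟨T, ⟨q, α⟩, n⟩ := j
      by_cases h : 2 ≤ q ∧ (∀ i, α i ≠ 0) ∧
        (∀ i k, i ≠ k → (α i).1 * (α k).2 - (α i).2 * (α k).1 ≠ 0)
      · exact (dimH_mono fun z hz => hz.2).trans
          (hup (T : Set (HeightOneSpectrum (RingOfIntegers ℚ))) T.finite_toSet q h.1 α h.2.1 h.2.2
            κ n τ hκ0 (by linarith) hτ (Or.inl hκ))
      · have : Z (T, ⟨q, α⟩, n) = ∅ := by
          rw [Set.eq_empty_iff_forall_notMem]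
          exact fun z hz => h hz.1
        rw [this, dimH_empty]
        exact zero_le
  · set α : Fin 2 → ℚ × ℚ := ![(0, 1), (1, 0)] with hα
    have h0 : ∀ i, α i ≠ 0 := by
      intro i
      fin_cases i <;> simp [hα]
    have h1 : ∀ i j, i ≠ j → (α i).1 * (α j).2 - (α i).2 * (α j).1 ≠ 0 := by
      intro i j hij
      fin_cases i <;> fin_cases j <;> simp_all
    refine (hlow ∅ 2 le_rfl α h0 h1 κ 0 τ hκ0 (by linarith) hτ).trans (dimH_mono ?_)
    intro ξ hξ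
    exact ⟨∅, 2, α, 0, Set.finite_empty, le_rfl, h0, h1, hξ⟩

end Pool.Agent.Results.MP_4d5ce1_nt.ExactDimension
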