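import Mathlib
import Pool.Agent.R870.RV.Line

set_option autoImplicit false

/-!
# The truncated inequality for almost all finite subsets of the projective line

The conjecture gives, for each finite subset `α_1, …, α_q` of the projective line over `ℚ` and each
finite set `S` of primes, a constant `C` with
`(q - 2 - ε) h(x) ≤ ∑_{p ∉ S} ∑_l λ^(1)_p (α_l, x) + C` for all `x ≠ α_l`.

We prove for all `q ≥ 1`, `S`, `ε > 0` and all real `κ < q`: for all but a proportion `O(H ^ (-δ))`
of the `q`-tuples `(α_1, …, α_q)` of points of height at most `H`, the inequality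

  `(q - 2 - ε) h(x) + κ log H ≤ ∑_{p ∉ S} ∑_l λ^(1)_p (α_l, x)`

holds for ALL points `x ≠ α_l` of the projective line over `ℚ` of height at most
`H ^ (2 - κ / q)`.

For `κ = 0`: the inequality with `C = 0` holds for all points of height up to the square of the
bound `H` for the height of the subset. For `κ` near `q`: for all points `x` of height at most `H` it
holds even with the additional term `(q - ε) log H`, so the truncated counting function is nearly as
large as it can be on average. For `κ < 0`: with the constant `C = |κ| log H` it holds for all the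
points of height at most `H ^ (2 + |κ| / q)`; this is not trivial for `|κ| < q (q - 2)`.
-/

namespace Pool.Agent.Results.MP_4d5ce1_nt.RandomSubsets

open Pool.Agent.R870.RC

theorem result (q : ℕ) (hq : 1 ≤ q) (S : Finset ℕ) (ε κ : ℝ) (hε : 0 < ε) (hκ : κ < q) :
    ∃ δ C : ℝ, 0 < δ ∧ ∀ H : ℕ, 1 ≤ H →
      (Tuples q H).Finite ∧ ((H : ℝ) ^ 2 / 2) ^ q ≤ ((Tuples q H).ncard : ℝ) ∧
      ((BadTuples q S ε κ H).ncard : ℝ) ≤ C * (H : ℝ) ^ (-δ) * ((Tuples q H).ncard : ℝ) :=
  random_line q hq S ε κ hε hκ

end Pool.Agent.Results.MP_4d5ce1_nt.RandomSubsets
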