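import Mathlib
import Pool.Agent.R365.SH.Final

set_option autoImplicit false

namespace Pool.Agent.Results.MP_4d5ce1_nt.SharpCount

open NumberField IsDedekindDomain Filter Topology

/-- the absolute logarithmic height of the point `[x : 1]` -/
noncomputable def height {K : Type} [Field K] [NumberField K] (x : K) : ℝ :=
  (∑ w : InfinitePlace K, (w.mult : ℝ) * Real.log (max (w x) (w 1)) +
    ∑ᶠ v : HeightOneSpectrum (RingOfIntegers K),
      Real.log (max (FinitePlace.mk v x) (FinitePlace.mk v 1))) /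
    (Module.finrank ℚ K : ℝ)

/-- the truncated counting function of the point `[x : 1]` with respect to the points
`[(α l).1 : (α l).2]`: the sum over the primes outside `T` and over `l` of the truncated local
heights -/
noncomputable def counting {K : Type} [Field K] [NumberField K]
    (T : Set (HeightOneSpectrum (RingOfIntegers K))) {q : ℕ} (α : Fin q → K × K) (x : K) : ℝ :=
  ∑ᶠ (v : HeightOneSpectrum (RingOfIntegers K)) (_ : v ∉ T),
    ∑ l : Fin q,
      min
        (Real.log
            (max (FinitePlace.mk v x) (FinitePlace.mk v 1) *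
              max (FinitePlace.mk v (α l).1) (FinitePlace.mk v (α l).2) /
              FinitePlace.mk v (x * (α l).2 - 1 * (α l).1)) /
          (Module.finrank ℚ K : ℝ))
        (Real.log (Ideal.absNorm v.asIdeal : ℝ) / (Module.finrank ℚ K : ℝ))

/-- the `x ∈ K`, different from the `α_l`, of whatever height, with `exp N_T(x) ≤ X`, where
`N_T(x) = ∑_{v ∉ T} ∑_l λ^(1)_v(α_l, x)` -/
def points {K : Type} [Field K] [NumberField K]
    (T : Set (HeightOneSpectrum (RingOfIntegers K))) {q : ℕ} (α : Fin q → K × K) (X : ℝ) : Set K :=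
  {x : K | (∀ l, x * (α l).2 - 1 * (α l).1 ≠ 0) ∧ Real.exp (counting T α x) ≤ X}

/-- those among them with `q h(x) ≥ N_T(x) + t` -/
def exceptional {K : Type} [Field K] [NumberField K]
    (T : Set (HeightOneSpectrum (RingOfIntegers K))) {q : ℕ} (α : Fin q → K × K) (X t : ℝ) :
    Set K :=
  {x : K | x ∈ points T α X ∧ counting T α x + t ≤ q * height x}

open Pool.Agent.H691R3 in
/-- Let `K` be a number field of degree `d`, `T` a finite set of primes and `α_1, …, α_q` (`q ≥ 3`)
distinct points of the projective line over `K`. Let `N(X)` be the number of all `x ∈ K`, different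
from the `α_l`, of whatever height, with `exp N_T(x) ≤ X`.
(1) `N(X)` is finite, and `c₁ X ^ (2 d / q) ≤ N(X) ≤ c₂ X ^ (2 d / q)` for large `X`, with positive
constants `c₁`, `c₂`.
(2) For every `c < 1 - 2/q` there are `C` and `ν > 0` such that for all `X ≥ 1` and `t ≥ 0` at most
`C (exp (- c d t) + X ^ (-ν)) X ^ (2 d / q)` of these `x` violate `q h(x) < N_T(x) + t`.
(3) For every function `ψ` tending to infinity the proportion of those with
`q h(x) ≥ N_T(x) + ψ(X)` tends to `0`. -/
theorem result :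
    ∀ (K : Type) [Field K] [NumberField K]
      (T : Set (HeightOneSpectrum (RingOfIntegers K))), T.Finite →
      ∀ (q : ℕ), 3 ≤ q → ∀ (α : Fin q → K × K),
        (∀ i, α i ≠ 0) →
        (∀ i j, i ≠ j → (α i).1 * (α j).2 - (α i).2 * (α j).1 ≠ 0) →
        (∀ X : ℝ, 1 ≤ X → (points T α X).Finite) ∧
        (∃ c₁ c₂ X₀ : ℝ, 0 < c₁ ∧ ∀ X : ℝ, X₀ ≤ X →
          c₁ * X ^ (2 / (q : ℝ) * Module.finrank ℚ K) ≤ ((points T α X).ncard : ℝ) ∧
          ((points T α X).ncard : ℝ) ≤ c₂ * X ^ (2 / (q : ℝ) * Module.finrank ℚ K)) ∧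
        (∀ c : ℝ, 0 ≤ c → c < 1 - 2 / q → ∃ C ν : ℝ, 0 < ν ∧ ∀ X t : ℝ, 1 ≤ X → 0 ≤ t →
          ((exceptional T α X t).ncard : ℝ) ≤
            C * (Real.exp (-(c * Module.finrank ℚ K * t)) + X ^ (-ν)) *
              X ^ (2 / (q : ℝ) * Module.finrank ℚ K)) ∧
        (∀ ψ : ℝ → ℝ, Tendsto ψ atTop atTop →
          Tendsto (fun X : ℝ => ((exceptional T α X (ψ X)).ncard : ℝ) /
            ((points T α X).ncard : ℝ)) atTop (𝓝 0)) := by
  intro K _ _ T hT q hq α hα0 hα
  classical
  set d : ℝ := (Module.finrank ℚ K : ℝ) with hd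
  have hdpos : 0 < d := by
    rw [hd]
    exact_mod_cast Module.finrank_pos
  have hqR : (3 : ℝ) ≤ q := by exact_mod_cast hq
  have hq0 : (0 : ℝ) < q := by linarith
  have hq2 : 0 < 1 - 2 / (q : ℝ) := by
    have : 2 / (q : ℝ) < 1 := by rw [div_lt_one hq0]; linarith
    linarith
  -- comparison with the unnormalised quantities
  have hheight : ∀ x : K, d * height x = hr (aff x) := by
    intro x
    unfold height
    rw [mul_div_cancel₀ _ hdpos.ne']
    rfl
  have hcount : ∀ x : K, d * counting T α x = NTc T α x := by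
    intro x
    unfold counting NTc
    rw [mul_finsum]
    refine finsum_congr fun v => ?_
    rw [finsum_eq_if, finsum_eq_if]
    split_ifs with hv
    · rw [mul_zero]
    rw [Finset.mul_sum]
    refine Finset.sum_congr rfl fun l _ => ?_
    rw [mul_min_of_nonneg _ _ hdpos.le, mul_div_cancel₀ _ hdpos.ne', mul_div_cancel₀ _ hdpos.ne']
    rfl
  have hfinal := Pool.Agent.R365.SH.final_of {x : K | ∀ l, x * (α l).2 - 1 * (α l).1 ≠ 0}
    height (counting T α) q d (2 / (q : ℝ)) hdpos ?_ hq2 hq0 ?_ ?_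
  · exact hfinal
  · intro c hc0 hc1
    obtain ⟨C, ν, hC, hν, h⟩ := Pool.Agent.R365.SH.all_upper hq T hT α hα0 hα c hc0 hc1
    refine ⟨C, ν, hC, hν, fun Λ t hΛ E hE => ?_⟩
    refine h (d * Λ) (d * t) (by positivity) E fun x hx => ?_
    obtain ⟨g1, g2, g3⟩ := hE x hx
    refine ⟨g1, ?_, ?_⟩
    · rw [← hcount]
      exact mul_le_mul_of_nonneg_left g2 hdpos.le
    · rw [← hcount, ← hheight]
      have := mul_le_mul_of_nonneg_left g3 hdpos.le
      linarith
  · intro x _
    have h1 := hr_aff_nonneg x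
    rw [← hheight] at h1
    exact nonneg_of_mul_nonneg_right h1 hdpos
  · obtain ⟨c₁, X₀, hc₁, hX₀, h⟩ := Pool.Agent.R365.SH.low_all hq T α hα0 hα
    refine ⟨c₁, X₀, hc₁, fun X hX => ?_⟩
    obtain ⟨E, hE, hcard⟩ := h X hX
    refine ⟨E, fun x hx => ?_, hcard⟩
    obtain ⟨g1, g2, _⟩ := hE x hx
    refine ⟨g1, ?_⟩
    rw [← hcount] at g2
    exact le_of_mul_le_mul_left g2 hdpos

end Pool.Agent.Results.MP_4d5ce1_nt.SharpCount
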